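import Pool.Agent.H61.KU.TC

/-!
# Module S4 of the board ku_modules
-/

set_option autoImplicit false

namespace Pool.Agent.H94.KU

open Pool.Agent.H61.KU

theorem pf_s4 (hF : T_FAC) (hR : T_ROT) (hI : T_SIM) (h3 : T_S3) : T_S4 := by
  intro ι W _ _ _ _ _ v E h9 hE T y hT hy
  have hcard : T.card = 4 := h3 ι W v E h9 hE T hT
  obtain ⟨hTf, hTr⟩ := hE.face T hT
  obtain ⟨hQf, hQr⟩ := hI ι W v T (T.erase y) hTf (by rw [hcard, hTr]) (Finset.erase_subset _ _)
  have hQc : (T.erase y).card = 3 := by rw [Finset.card_erase_of_mem hy, hcard]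
  obtain ⟨hU, -⟩ := hF ι W v
  obtain ⟨R, hRf, -, -, hRQ, hsp⟩ := hR ι W v Finset.univ (T.erase y) ∅ hU hQf
    hE.conf.empty (Finset.subset_univ _) (Finset.subset_univ _)
  have hrk : 6 ≤ rk v R := by
    have h1 : Module.finrank ℝ ↥(sp v R ⊔ sp v (T.erase y)) ≤
        Module.finrank ℝ ↥(sp v R) + Module.finrank ℝ ↥(sp v (T.erase y)) :=
      Submodule.finrank_add_le_finrank_add_finrank _ _
    rw [hsp, hE.conf.span, finrank_top, h9] at h1
    have h2 : Module.finrank ℝ ↥(sp v (T.erase y)) = 3 := by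
      have := hQr
      unfold rk at this
      rw [this, hQc]
    rw [h2] at h1
    unfold rk
    omega
  obtain ⟨T', hT', hT'R⟩ := hE.f1 R hRf hrk
  have hdis : Disjoint T' (T.erase y) := by
    rw [Finset.disjoint_iff_inter_eq_empty]
    have h1 : T' ∩ T.erase y ⊆ R ∩ T.erase y := Finset.inter_subset_inter_right hT'R
    rw [hRQ, Finset.empty_inter] at h1
    exact Finset.subset_empty.mp h1
  refine ⟨T', hT', hdis, ?_⟩
  intro x hx
  by_contra hxT
  apply hE.f2 T' (insert x (T.erase y)) hT' hx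
  rw [Finset.disjoint_insert_right]
  exact ⟨hxT, hdis⟩

end Pool.Agent.H94.KU
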