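import Pool.Agent.H61.KU.TA
import Pool.Agent.H61.KU.PNB

/-!
# Module XHO of the board ku_modules: homology of the complex projective plane
-/

set_option autoImplicit false

open Topology Set
open Pool.Agent.H59 Pool.Agent.H64.LB
open scoped unitInterval

namespace Pool.Agent.H94.KU.XHO

open Pool.Agent.H61.KU

/-! ## Transport -/

theorem bij_homeo (q : ℕ) {X Y : Type} [TopologicalSpace X]
    [TopologicalSpace Y] (e : X ≃ₜ Y) :
    Function.Bijective (HH.map (ZMod 2) q (e : C(X, Y))) := by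
  have h1 : ∀ z, HH.map (ZMod 2) q (e.symm : C(Y, X)) (HH.map (ZMod 2) q (e : C(X, Y)) z) = z := by
    intro z
    rw [← HH.map_comp]
    have : (e.symm : C(Y, X)).comp (e : C(X, Y)) = ContinuousMap.id X := by
      ext x
      simp
    rw [this, HH.map_id]
  have h2 : ∀ z, HH.map (ZMod 2) q (e : C(X, Y)) (HH.map (ZMod 2) q (e.symm : C(Y, X)) z) = z := by
    intro z
    rw [← HH.map_comp]
    have : (e : C(X, Y)).comp (e.symm : C(Y, X)) = ContinuousMap.id Y := by
      ext x
      simp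
    rw [this, HH.map_id]
  exact ⟨Function.LeftInverse.injective h1, Function.RightInverse.surjective h2⟩

theorem bij_equiv (hHM : T_HM) (q : ℕ) {X Y : Type} [TopologicalSpace X]
    [TopologicalSpace Y] (e : ContinuousMap.HomotopyEquiv X Y) :
    Function.Bijective (HH.map (ZMod 2) q e.toFun) := by
  have h1 : ∀ z, HH.map (ZMod 2) q e.invFun (HH.map (ZMod 2) q e.toFun z) = z := by
    intro z
    rw [← HH.map_comp, hHM (ZMod 2) _ _ _ _ e.left_inv q, HH.map_id]
  have h2 : ∀ z, HH.map (ZMod 2) q e.toFun (HH.map (ZMod 2) q e.invFun z) = z := by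
    intro z
    rw [← HH.map_comp, hHM (ZMod 2) _ _ _ _ e.right_inv q, HH.map_id]
  exact ⟨Function.LeftInverse.injective h1, Function.RightInverse.surjective h2⟩

theorem sub_homeo (q : ℕ) {X Y : Type} [TopologicalSpace X] [TopologicalSpace Y] (e : X ≃ₜ Y)
    (h : Subsingleton (HH (ZMod 2) q X)) : Subsingleton (HH (ZMod 2) q Y) :=
  (bij_homeo q e).2.subsingleton

theorem bij_zero (hH : T_H0) {X Y : Type} [TopologicalSpace X] [TopologicalSpace Y]
    [PathConnectedSpace X] [PathConnectedSpace Y] (f : C(X, Y)) :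
    Function.Bijective (HH.map (ZMod 2) 0 f) := by
  obtain ⟨ε, -, h2, h3⟩ := hH (ZMod 2)
  have e : (fun z => ε Y (HH.map (ZMod 2) 0 f z)) = ε X := funext (h2 X Y f)
  have hb : Function.Bijective (fun z => ε Y (HH.map (ZMod 2) 0 f z)) := by
    rw [e]
    exact h3 X
  constructor
  · intro a b hab
    apply hb.1
    change ε Y (HH.map (ZMod 2) 0 f a) = ε Y (HH.map (ZMod 2) 0 f b)
    rw [hab]
  · intro y
    obtain ⟨z, hz⟩ := hb.2 (ε Y y)
    exact ⟨z, (h3 Y).1 hz⟩

/-! ## Path connectedness -/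

theorem pc_NZ (n : ℕ) : PathConnectedSpace (NZ n) := by
  have h : IsPathConnected ({(0 : Fin (n + 1) → ℂ)}ᶜ : Set (Fin (n + 1) → ℂ)) := by
    apply isPathConnected_compl_singleton_of_one_lt_rank
    have h1 : Module.finrank ℝ (Fin (n + 1) → ℂ) = 2 * (n + 1) := by
      rw [Module.finrank_pi_fintype]
      simp [mul_comm]
    rw [← Module.finrank_eq_rank]
    have h2 : 1 < Module.finrank ℝ (Fin (n + 1) → ℂ) := by omega
    exact_mod_cast h2
  exact isPathConnected_iff_pathConnectedSpace.mp h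

theorem pc_PN (n : ℕ) : PathConnectedSpace (PN n) := by
  have := pc_NZ n
  exact (Quotient.mk_surjective (s := projSetoid n)).pathConnectedSpace continuous_quotient_mk'

theorem pc_NN : PathConnectedSpace NN := by
  have := pc_NZ 1
  have hs : Function.Surjective (fun p : NZ 1 × ℂ => PNN p.1.1 p.2 p.1.2) := by
    intro y
    obtain ⟨u, c, h, hy⟩ := exists_PNN y
    exact ⟨(⟨u, h⟩, c), hy.symm⟩
  refine hs.pathConnectedSpace ?_
  refine Continuous.subtype_mk (continuous_P3 ?_ ?_ ?_) _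
  · exact continuous_subtype_val.comp continuous_fst
  · exact continuous_snd
  · rintro p ⟨h, -⟩
    exact p.1.2 h

/-! ## The sequence -/

theorem cell_q0 (hM : T_MV) (hHM : T_HM) (hO : T_CON) (hH : T_H0) (hPN : T_PNT) (hPL : T_PL1)
    (hS2 : T_S2H) (hS : T_SPH) (hC : T_CHP) :
    CellLike (PN 2) {q0} ∧ Subsingleton (HH (ZMod 2) 1 (PN 2)) ∧
      Subsingleton (HH (ZMod 2) 3 (PN 2)) ∧
      ∀ q, 5 ≤ q → Subsingleton (HH (ZMod 2) q (PN 2)) := by
  obtain ⟨M⟩ := hM (ZMod 2)
  obtain ⟨-, e0, -⟩ := hPL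
  obtain ⟨-, hS21, hS23, -⟩ := hS2 (ZMod 2)
  obtain ⟨-, hSq, hSc, -⟩ := hS
  have hT2 : T2Space (PN 2) := (hPN 2).2
  have hX := pc_PN 2
  -- homology of the complement of the point
  have hN1 : Subsingleton (HH (ZMod 2) 1 NN) := by
    have h1 : Subsingleton (HH (ZMod 2) 1 (PN 1)) := sub_homeo 1 e0 hS21
    exact (bij_equiv hHM 1 rhoEquiv).1.subsingleton
  have hN3 : ∀ q, Subsingleton (HH (ZMod 2) (q + 3) NN) := by
    intro q
    have h1 : Subsingleton (HH (ZMod 2) (q + 3) (PN 1)) := sub_homeo (q + 3) e0 (hS23 q)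
    exact (bij_equiv hHM (q + 3) rhoEquiv).1.subsingleton
  -- the open sets
  obtain ⟨c, hc, hc0⟩ := hC q0
  set U : Set (PN 2) := ({q0} : Set (PN 2))ᶜ with hU
  set V : Set (PN 2) := range c with hV
  have hUo : IsOpen U := isOpen_compl_singleton
  have hVo : IsOpen V := hc.isOpen_range
  have hUV : U ∪ V = univ := by
    ext y
    simp only [mem_union, mem_univ, iff_true]
    by_cases hy : y = q0
    · right
      exact ⟨0, by rw [hc0, hy]⟩
    · left
      exact hy
  have hUc : PathConnectedSpace ↥U := pc_NN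
  let ev : (Fin 4 → ℝ) ≃ₜ ↥V := hc.isEmbedding.toHomeomorph
  have hVc : ContractibleSpace ↥V := ev.symm.contractibleSpace
  have hVp : PathConnectedSpace ↥V := inferInstance
  -- the intersection is a punctured space
  have hinj := hc.injective
  have hI : Nonempty (Sph 3 ≃ₜ ↥(U ∩ V)) := by
    have hemb : IsEmbedding (fun x : Sph 3 => c x.1) := hc.isEmbedding.comp IsEmbedding.subtypeVal
    have hr : range (fun x : Sph 3 => c x.1) = U ∩ V := by
      ext y
      constructor
      · rintro ⟨x, rfl⟩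
        refine ⟨?_, x.1, rfl⟩
        intro h
        apply x.2
        apply hinj
        rw [hc0]
        exact h
      · rintro ⟨h1, x, rfl⟩
        refine ⟨⟨x, ?_⟩, rfl⟩
        rintro rfl
        exact h1 hc0
    exact ⟨hemb.toHomeomorph.trans (Homeomorph.setCongr hr)⟩
  obtain ⟨ei⟩ := hI
  have hIq : ∀ q, 0 < q → q ≠ 3 → Subsingleton (HH (ZMod 2) q ↥(U ∩ V)) := fun q h1 h2 =>
    sub_homeo q ei (hSq 3 q h1 h2)
  have hIc : PathConnectedSpace ↥(U ∩ V) := by
    have := hSc 3 (by norm_num)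
    exact ei.surjective.pathConnectedSpace ei.continuous
  have hVq : ∀ q, Subsingleton (HH (ZMod 2) (q + 1) ↥V) := fun q => hO (ZMod 2) ↥V q
  -- vanishing from the sequence
  have key : ∀ q, (∀ z : HH (ZMod 2) (q + 1) (PN 2), M.δ (PN 2) U V q z = 0) →
      Subsingleton (HH (ZMod 2) (q + 1) ↥U) → Subsingleton (HH (ZMod 2) (q + 1) (PN 2)) := by
    intro q hδ hsub
    refine ⟨fun z z' => ?_⟩
    have h0 : ∀ z : HH (ZMod 2) (q + 1) (PN 2), z = 0 := by
      intro z
      obtain ⟨a, b, hab⟩ := (M.exact_union (PN 2) U V hUo hVo hUV q z).mpr (hδ z)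
      have ha : a = 0 := Subsingleton.elim _ _
      have hb : b = 0 := (hVq q).elim _ _
      rw [hab, ha, hb, map_zero, map_zero, add_zero]
    rw [h0 z, h0 z']
  have h1 : Subsingleton (HH (ZMod 2) 1 (PN 2)) := by
    refine key 0 ?_ hN1
    intro z
    have hz := ((M.exact_inter (PN 2) U V hUo hVo hUV 0 (M.δ (PN 2) U V 0 z)).mpr ⟨z, rfl⟩).1
    have hb := bij_zero hH (incL U V)
    apply hb.1
    rw [hz, map_zero]
  have h3 : Subsingleton (HH (ZMod 2) 3 (PN 2)) := by
    refine key 2 ?_ (hN3 0)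
    intro z
    exact (hIq 2 (by norm_num) (by norm_num)).elim _ _
  have h5 : ∀ q, 5 ≤ q → Subsingleton (HH (ZMod 2) q (PN 2)) := by
    intro q hq
    obtain ⟨r, rfl⟩ : ∃ r, q = (r + 4) + 1 := ⟨q - 5, by omega⟩
    refine key (r + 4) ?_ (hN3 (r + 2))
    intro z
    exact (hIq (r + 4) (by omega) (by omega)).elim _ _
  have h2 : Function.Bijective (HH.map (ZMod 2) 2 (inc U)) := by
    constructor
    · rw [injective_iff_map_eq_zero]
      intro a ha
      have h4 : HH.map (ZMod 2) 2 (inc U) a + HH.map (ZMod 2) 2 (inc V) 0 = 0 := by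
        rw [ha, map_zero, add_zero]
      obtain ⟨w, hw, -⟩ := (M.exact_sum (PN 2) U V hUo hVo hUV 2 a 0).mp h4
      have hw0 : w = 0 := (hIq 2 (by norm_num) (by norm_num)).elim _ _
      rw [hw, hw0, map_zero]
    · intro z
      have hδ : M.δ (PN 2) U V 1 z = 0 := (hIq 1 (by norm_num) (by norm_num)).elim _ _
      obtain ⟨a, b, hab⟩ := (M.exact_union (PN 2) U V hUo hVo hUV 1 z).mpr hδ
      have hb : b = 0 := (hVq 1).elim _ _
      exact ⟨a, by rw [hab, hb, map_zero, add_zero]⟩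
  refine ⟨⟨?_, ?_⟩, h1, h3, h5⟩
  · intro q hq
    interval_cases q
    · exact bij_zero hH _
    · have : Subsingleton (HH (ZMod 2) 1 ↥U) := hN1
      exact ⟨fun a b _ => Subsingleton.elim _ _, fun y => ⟨0, Subsingleton.elim _ _⟩⟩
    · exact h2
    · have : Subsingleton (HH (ZMod 2) 3 ↥U) := hN3 0
      exact ⟨fun a b _ => Subsingleton.elim _ _, fun y => ⟨0, Subsingleton.elim _ _⟩⟩
  · intro q hq
    obtain ⟨r, rfl⟩ : ∃ r, q = r + 3 := ⟨q - 3, by omega⟩
    exact hN3 r

theorem cell_transport {X : Type} [TopologicalSpace X] (x y : X) (e : X ≃ₜ X) (he : e y = x)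
    (h : CellLike X {x}) : CellLike X {y} := by
  have hset : ∀ z : X, z ∈ (({y} : Set X)ᶜ) ↔ e z ∈ (({x} : Set X)ᶜ) := by
    intro z
    simp only [mem_compl_iff, mem_singleton_iff, not_iff_not]
    constructor
    · rintro rfl
      exact he
    · intro hz
      apply e.injective
      rw [hz, he]
  let es : ↥(({y} : Set X)ᶜ) ≃ₜ ↥(({x} : Set X)ᶜ) := e.subtype hset
  have hsq : (inc (({x} : Set X)ᶜ)).comp (es : C(↥(({y} : Set X)ᶜ), ↥(({x} : Set X)ᶜ))) =
      (e : C(X, X)).comp (inc (({y} : Set X)ᶜ)) := by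
    ext z
    rfl
  constructor
  · intro q hq
    have h1 : Function.Bijective (fun z => HH.map (ZMod 2) q (e : C(X, X))
        (HH.map (ZMod 2) q (inc (({y} : Set X)ᶜ)) z)) := by
      have h2 : (fun z => HH.map (ZMod 2) q (e : C(X, X))
          (HH.map (ZMod 2) q (inc (({y} : Set X)ᶜ)) z)) = fun z =>
          HH.map (ZMod 2) q (inc (({x} : Set X)ᶜ)) (HH.map (ZMod 2) q
            (es : C(↥(({y} : Set X)ᶜ), ↥(({x} : Set X)ᶜ))) z) := by
        funext z
        rw [← HH.map_comp, ← HH.map_comp, hsq]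
      rw [h2]
      exact (h.1 q hq).comp (bij_homeo q es)
    exact (Function.Bijective.of_comp_iff' (bij_homeo q e) _).mp h1
  · intro q hq
    have := h.2 q hq
    exact (bij_homeo q es).1.subsingleton

theorem pf_xho (hM : T_MV) (hHM : T_HM) (hO : T_CON) (hH : T_H0) (hPN : T_PNT) (hPL : T_PL1)
    (hS2 : T_S2H) (hS : T_SPH) (hC : T_CHP) (hh : T_HOM) : T_XHO := by
  obtain ⟨h0, h1, h3, h5⟩ := cell_q0 hM hHM hO hH hPN hPL hS2 hS hC
  refine ⟨pc_PN 2, ?_, h1, h3, h5, (hPN 2).1, (hPN 2).2⟩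
  intro y
  obtain ⟨e, he⟩ := hh 2 y q0
  exact cell_transport q0 y e he h0

end Pool.Agent.H94.KU.XHO
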