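import Pool.Agent.H61.KU.TT

/-!
# Module CPT of the board ku_modules: topology of the caps
-/

set_option autoImplicit false

open Topology Set
open Pool.Agent.H59 Pool.Agent.H64.LB Pool.Agent.H24.LB
open scoped unitInterval

namespace Pool.Agent.H94.KU.CPT

open Pool.Agent.H61.KU

/-- normalisation -/
noncomputable def nrm3 (v : Fin 3 → ℝ) : Fin 3 → ℝ := fun i => v i / √(∑ j, v j ^ 2)

theorem nrm3_mem {v : Fin 3 → ℝ} (h : 0 < ∑ j, v j ^ 2) : ∑ i, nrm3 v i ^ 2 = 1 := by
  unfold nrm3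
  simp only [div_pow, Real.sq_sqrt h.le]
  rw [← Finset.sum_div, div_self h.ne']

/-- the normalised point of the sphere -/
noncomputable def mkS (v : Fin 3 → ℝ) (h : 0 < ∑ j, v j ^ 2) : S2 := ⟨nrm3 v, nrm3_mem h⟩

theorem continuous_mkS {T : Type} [TopologicalSpace T] {v : T → Fin 3 → ℝ} (hv : Continuous v)
    (h : ∀ t, 0 < ∑ j, v t j ^ 2) : Continuous (fun t => mkS (v t) (h t)) := by
  refine Continuous.subtype_mk (continuous_pi (fun i => ?_)) _
  have h1 : ∀ i, Continuous (fun t => v t i) := fun i => (continuous_apply i).comp hv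
  refine (h1 i).div ?_ ?_
  · exact Real.continuous_sqrt.comp (continuous_finsetSum _ (fun j _ => (h1 j).pow 2))
  · intro t
    exact (Real.sqrt_pos.mpr (h t)).ne'

theorem nrm3_one {v : Fin 3 → ℝ} (h : ∑ j, v j ^ 2 = 1) : nrm3 v = v := by
  funext i
  simp [nrm3, h]

theorem lower {w n : ℝ} (hn : 0 < n) (h : 0 ≤ w ∨ 4 * w ^ 2 < n) : -(1 / 2 : ℝ) < w / √n := by
  have hs := Real.sqrt_pos.mpr hn
  rw [lt_div_iff₀ hs]
  rcases le_or_gt 0 w with h0 | h0
  · nlinarith
  · have h1 : 4 * w ^ 2 < n := by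
      rcases h with h | h
      · linarith
      · exact h
    have h2 : -(2 * w) < √n := by
      rw [Real.lt_sqrt (by linarith)]
      nlinarith
    linarith

/-- the cap around `(0, 0, s)` -/
def Dc (s : ℝ) : Set S2 := {x | -(1 / 2 : ℝ) < s * x.1 2}

theorem Dp_eq : Dp = Dc 1 := by
  ext x
  simp [Dp, Dc]

theorem Dm_eq : Dm = Dc (-1) := by
  ext x
  change x.1 2 < (1 / 2 : ℝ) ↔ -(1 / 2 : ℝ) < -1 * x.1 2
  constructor <;> intro h <;> linarith

/-- the point before normalisation -/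
def pth (s t : ℝ) (x : Fin 3 → ℝ) : Fin 3 → ℝ :=
  ![(1 - t) * x 0, (1 - t) * x 1, (1 - t) * x 2 + t * s]

theorem sum_pth {s t : ℝ} (hs : s ^ 2 = 1) {x : Fin 3 → ℝ} (hx : ∑ i, x i ^ 2 = 1) :
    ∑ j, pth s t x j ^ 2 = (1 - t) ^ 2 + 2 * t * (1 - t) * (s * x 2) + t ^ 2 := by
  rw [Fin.sum_univ_three] at hx ⊢
  simp only [pth, Matrix.cons_val_zero, Matrix.cons_val_one, Matrix.cons_val]
  linear_combination (1 - t) ^ 2 * hx + t ^ 2 * hs

theorem pos_aux {t z : ℝ} (h0 : 0 ≤ t) (h1 : t ≤ 1) (hz : -(1 / 2 : ℝ) < z) :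
    0 < (1 - t) ^ 2 + 2 * t * (1 - t) * z + t ^ 2 := by
  have h2 : 0 ≤ t * (1 - t) := mul_nonneg h0 (by linarith)
  nlinarith [sq_nonneg (2 * t - 1), mul_nonneg h2 (by linarith : (0 : ℝ) ≤ z + 1 / 2)]

theorem cap_aux {t z : ℝ} (h0 : 0 ≤ t) (h1 : t ≤ 1) (hz : -(1 / 2 : ℝ) < z) :
    0 ≤ (1 - t) * z + t ∨
      4 * ((1 - t) * z + t) ^ 2 < (1 - t) ^ 2 + 2 * t * (1 - t) * z + t ^ 2 := by
  rcases le_or_gt 0 ((1 - t) * z + t) with h | h
  · exact Or.inl h
  · right
    have ht : t < 1 := by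
      rcases eq_or_lt_of_le h1 with h2 | h2
      · rw [h2] at h
        linarith
      · exact h2
    have h3 : 0 < 1 - t := by linarith
    have hz0 : z < 0 := by
      by_contra h4
      push Not at h4
      have := mul_nonneg h3.le h4
      linarith
    have h4 : 0 < 1 - 4 * z ^ 2 := by nlinarith
    have h5 : 0 < (1 - t) ^ 2 * (1 - 4 * z ^ 2) := mul_pos (pow_pos h3 2) h4
    have h6 : 0 ≤ t * (-2 * ((1 - t) * z) - t) := mul_nonneg h0 (by linarith)
    nlinarith

/-- the contraction of a cap -/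
noncomputable def capHom (s : ℝ) (hs : s ^ 2 = 1) : C(I × Dc s, Dc s) where
  toFun p := ⟨mkS (pth s p.1 p.2.1.1) (by
      rw [sum_pth hs p.2.1.2]
      exact pos_aux p.1.2.1 p.1.2.2 p.2.2), by
    have h1 : s * (pth s p.1 p.2.1.1 2) = (1 - (p.1 : ℝ)) * (s * p.2.1.1 2) + p.1 := by
      simp only [pth, Matrix.cons_val]
      linear_combination (p.1 : ℝ) * hs
    change -(1 / 2 : ℝ) < s * (pth s p.1 p.2.1.1 2 / √(∑ j, pth s p.1 p.2.1.1 j ^ 2))
    rw [← mul_div_assoc, h1, sum_pth hs p.2.1.2]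
    exact lower (pos_aux p.1.2.1 p.1.2.2 p.2.2) (cap_aux p.1.2.1 p.1.2.2 p.2.2)⟩
  continuous_toFun := by
    refine Continuous.subtype_mk (continuous_mkS ?_ _) _
    have hx : ∀ i : Fin 3, Continuous (fun p : I × Dc s => p.2.1.1 i) := fun i =>
      (continuous_apply i).comp (continuous_subtype_val.comp
        (continuous_subtype_val.comp continuous_snd))
    have ht : Continuous (fun p : I × Dc s => (p.1 : ℝ)) :=
      continuous_subtype_val.comp continuous_fst
    refine continuous_pi (fun i => ?_)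
    fin_cases i
    · exact (continuous_const.sub ht).mul (hx 0)
    · exact (continuous_const.sub ht).mul (hx 1)
    · exact ((continuous_const.sub ht).mul (hx 2)).add (ht.mul continuous_const)

theorem contractible_cap (s : ℝ) (hs : s ^ 2 = 1) : ContractibleSpace (Dc s) := by
  have hpe : ∑ i, (![0, 0, s] : Fin 3 → ℝ) i ^ 2 = 1 := by
    rw [Fin.sum_univ_three]
    simp [hs]
  have hpm : (⟨![0, 0, s], hpe⟩ : S2) ∈ Dc s := by
    change -(1 / 2 : ℝ) < s * s
    nlinarith
  rw [contractible_iff_id_nullhomotopic]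
  refine ⟨⟨⟨![0, 0, s], hpe⟩, hpm⟩, ⟨{ toContinuousMap := capHom s hs, map_zero_left := ?_, map_one_left := ?_ }⟩⟩
  · intro x
    apply Subtype.ext
    apply Subtype.ext
    change nrm3 (pth s 0 x.1.1) = x.1.1
    have h1 : pth s 0 x.1.1 = x.1.1 := by
      funext i
      fin_cases i <;> simp [pth]
    rw [h1]
    exact nrm3_one x.1.2
  · intro x
    apply Subtype.ext
    apply Subtype.ext
    change nrm3 (pth s 1 x.1.1) = ![0, 0, s]
    have h1 : pth s 1 x.1.1 = ![0, 0, s] := by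
      funext i
      fin_cases i <;> simp [pth]
    rw [h1]
    exact nrm3_one hpe

/-! ## The band -/

/-- the vector with the third coordinate multiplied by `t` -/
def bnd (t : ℝ) (x : Fin 3 → ℝ) : Fin 3 → ℝ := ![x 0, x 1, t * x 2]

theorem sum_bnd {t : ℝ} {x : Fin 3 → ℝ} (hx : ∑ i, x i ^ 2 = 1) :
    ∑ j, bnd t x j ^ 2 = 1 - x 2 ^ 2 + t ^ 2 * x 2 ^ 2 := by
  rw [Fin.sum_univ_three] at hx ⊢
  simp only [bnd, Matrix.cons_val_zero, Matrix.cons_val_one, Matrix.cons_val]
  linear_combination hx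

theorem band_iff (x : S2) : x ∈ Dp ∩ Dm ↔ -(1 / 2 : ℝ) < x.1 2 ∧ x.1 2 < 1 / 2 := Iff.rfl

theorem band_sq {z : ℝ} (h1 : -(1 / 2 : ℝ) < z) (h2 : z < 1 / 2) : 4 * z ^ 2 < 1 := by nlinarith

theorem upper {w n : ℝ} (hn : 0 < n) (h : 4 * w ^ 2 < n) : w / √n < (1 / 2 : ℝ) := by
  have h1 := lower (w := -w) hn (Or.inr (by nlinarith))
  rw [neg_div] at h1
  linarith

theorem bnd_pos {t : ℝ} (x : ↥(Dp ∩ Dm)) : 0 < ∑ j, bnd t x.1.1 j ^ 2 := by
  rw [sum_bnd x.1.2]
  have h := band_sq ((band_iff x.1).mp x.2).1 ((band_iff x.1).mp x.2).2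
  have := mul_nonneg (sq_nonneg t) (sq_nonneg (x.1.1 2))
  linarith

theorem bnd_mem {t : ℝ} (h0 : 0 ≤ t) (h1 : t ≤ 1) (x : ↥(Dp ∩ Dm)) :
    mkS (bnd t x.1.1) (bnd_pos x) ∈ Dp ∩ Dm := by
  have h := band_sq ((band_iff x.1).mp x.2).1 ((band_iff x.1).mp x.2).2
  have h2 : 4 * (t * x.1.1 2) ^ 2 < ∑ j, bnd t x.1.1 j ^ 2 := by
    rw [sum_bnd x.1.2]
    have h3 : t ^ 2 ≤ 1 := by nlinarith
    have h4 : 0 ≤ (1 - t ^ 2) * x.1.1 2 ^ 2 := mul_nonneg (by linarith) (sq_nonneg _)
    nlinarith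
  rw [band_iff]
  exact ⟨lower (bnd_pos x) (Or.inr h2), upper (bnd_pos x) h2⟩

/-- `(a, b)` as a vector in `ℝ^3` -/
def up (x : Fin 2 → ℝ) : Fin 3 → ℝ := ![x 0, x 1, 0]

theorem sum_up (x : Fin 2 → ℝ) : ∑ j, up x j ^ 2 = x 0 ^ 2 + x 1 ^ 2 := by
  rw [Fin.sum_univ_three]
  simp [up]

theorem up_pos (x : Sph 1) : 0 < ∑ j, up x.1 j ^ 2 := by
  rw [sum_up]
  rcases lt_or_eq_of_le (add_nonneg (sq_nonneg (x.1 0)) (sq_nonneg (x.1 1))) with h | h
  · exact h
  · exfalso
    apply x.2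
    have h0 : x.1 0 = 0 := by nlinarith [sq_nonneg (x.1 0), sq_nonneg (x.1 1)]
    have h1 : x.1 1 = 0 := by nlinarith [sq_nonneg (x.1 0), sq_nonneg (x.1 1)]
    funext i
    fin_cases i
    · exact h0
    · exact h1

/-- from the punctured plane to the band -/
noncomputable def toBand : C(Sph 1, ↥(Dp ∩ Dm)) where
  toFun x := ⟨mkS (up x.1) (up_pos x), by
    rw [band_iff]
    change -(1 / 2 : ℝ) < (0 : ℝ) / √(∑ j, up x.1 j ^ 2) ∧ (0 : ℝ) / √(∑ j, up x.1 j ^ 2) < 1 / 2
    rw [zero_div]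
    norm_num⟩
  continuous_toFun := by
    refine Continuous.subtype_mk (continuous_mkS ?_ _) _
    refine continuous_pi (fun i => ?_)
    have hx : ∀ i : Fin 2, Continuous (fun p : Sph 1 => p.1 i) := fun i =>
      (continuous_apply i).comp continuous_subtype_val
    fin_cases i
    · exact hx 0
    · exact hx 1
    · exact continuous_const

/-- from the band to the punctured plane -/
noncomputable def ofBand : C(↥(Dp ∩ Dm), Sph 1) where
  toFun x := ⟨![x.1.1 0, x.1.1 1], by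
    intro h
    have h0 : x.1.1 0 = 0 := congrFun h 0
    have h1 : x.1.1 1 = 0 := congrFun h 1
    have h2 := x.1.2
    rw [Fin.sum_univ_three, h0, h1] at h2
    have h3 := band_sq ((band_iff x.1).mp x.2).1 ((band_iff x.1).mp x.2).2
    linarith⟩
  continuous_toFun := by
    refine Continuous.subtype_mk ?_ _
    have hx : ∀ i : Fin 3, Continuous (fun p : ↥(Dp ∩ Dm) => p.1.1 i) := fun i =>
      (continuous_apply i).comp (continuous_subtype_val.comp continuous_subtype_val)
    refine continuous_pi (fun i => ?_)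
    fin_cases i
    · exact hx 0
    · exact hx 1

/-- the homotopy on the band -/
noncomputable def bandHom : (toBand.comp ofBand).Homotopy (ContinuousMap.id ↥(Dp ∩ Dm)) where
  toFun p := ⟨mkS (bnd p.1 p.2.1.1) (bnd_pos p.2), bnd_mem p.1.2.1 p.1.2.2 p.2⟩
  continuous_toFun := by
    refine Continuous.subtype_mk (continuous_mkS ?_ _) _
    have hx : ∀ i : Fin 3, Continuous (fun p : I × ↥(Dp ∩ Dm) => p.2.1.1 i) := fun i =>
      (continuous_apply i).comp (continuous_subtype_val.comp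
        (continuous_subtype_val.comp continuous_snd))
    have ht : Continuous (fun p : I × ↥(Dp ∩ Dm) => (p.1 : ℝ)) :=
      continuous_subtype_val.comp continuous_fst
    refine continuous_pi (fun i => ?_)
    fin_cases i
    · exact hx 0
    · exact hx 1
    · exact ht.mul (hx 2)
  map_zero_left x := by
    apply Subtype.ext
    apply Subtype.ext
    change nrm3 (bnd 0 x.1.1) = nrm3 (up ![x.1.1 0, x.1.1 1])
    congr 1
    funext i
    fin_cases i <;> simp [bnd, up]
  map_one_left x := by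
    apply Subtype.ext
    apply Subtype.ext
    change nrm3 (bnd 1 x.1.1) = x.1.1
    have h1 : bnd 1 x.1.1 = x.1.1 := by
      funext i
      fin_cases i <;> simp [bnd]
    rw [h1]
    exact nrm3_one x.1.2

/-- the factor -/
noncomputable def fac (t : ℝ) (x : Fin 2 → ℝ) : ℝ := (1 - t) / √(∑ j, up x j ^ 2) + t

theorem fac_pos {t : ℝ} (h0 : 0 ≤ t) (h1 : t ≤ 1) (x : Sph 1) : 0 < fac t x.1 := by
  have hs := Real.sqrt_pos.mpr (up_pos x)
  unfold fac
  rcases eq_or_lt_of_le h0 with h | h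
  · rw [← h]
    simp only [sub_zero, add_zero]
    positivity
  · have : 0 ≤ (1 - t) / √(∑ j, up x.1 j ^ 2) := div_nonneg (by linarith) hs.le
    linarith

/-- the homotopy on the punctured plane -/
noncomputable def planeHom : (ofBand.comp toBand).Homotopy (ContinuousMap.id (Sph 1)) where
  toFun p := ⟨fun i => fac p.1 p.2.1 * p.2.1 i, by
    intro h
    apply p.2.2
    funext i
    have h1 := congrFun h i
    have h2 := (fac_pos p.1.2.1 p.1.2.2 p.2).ne'
    rcases mul_eq_zero.mp h1 with h3 | h3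
    · exact absurd h3 h2
    · exact h3⟩
  continuous_toFun := by
    refine Continuous.subtype_mk ?_ _
    have hx : ∀ i : Fin 2, Continuous (fun p : I × Sph 1 => p.2.1 i) := fun i =>
      (continuous_apply i).comp (continuous_subtype_val.comp continuous_snd)
    have ht : Continuous (fun p : I × Sph 1 => (p.1 : ℝ)) :=
      continuous_subtype_val.comp continuous_fst
    have hf : Continuous (fun p : I × Sph 1 => fac p.1 p.2.1) := by
      unfold fac
      refine ((continuous_const.sub ht).div ?_ ?_).add ht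
      · refine Real.continuous_sqrt.comp ?_
        simp only [sum_up]
        exact ((hx 0).pow 2).add ((hx 1).pow 2)
      · intro p
        exact (Real.sqrt_pos.mpr (up_pos p.2)).ne'
    exact continuous_pi (fun i => hf.mul (hx i))
  map_zero_left x := by
    apply Subtype.ext
    funext i
    change fac 0 x.1 * x.1 i = (![nrm3 (up x.1) 0, nrm3 (up x.1) 1] : Fin 2 → ℝ) i
    fin_cases i
    · simp only [fac, nrm3, up, sub_zero, add_zero]
      simp [div_eq_inv_mul]
    · simp only [fac, nrm3, up, sub_zero, add_zero]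
      simp [div_eq_inv_mul]
  map_one_left x := by
    apply Subtype.ext
    funext i
    change fac 1 x.1 * x.1 i = x.1 i
    simp [fac]

theorem pf_cpt : T_CPT := by
  have hc : Continuous (fun x : S2 => x.1 2) := (continuous_apply 2).comp continuous_subtype_val
  refine ⟨?_, ?_, ?_, ?_, ?_, ⟨⟨toBand, ofBand, ⟨planeHom⟩, ⟨bandHom⟩⟩⟩⟩
  · exact isOpen_lt continuous_const hc
  · exact isOpen_lt hc continuous_const
  · ext x
    simp only [mem_union, mem_univ, iff_true]
    rcases lt_or_ge (x.1 2) (1 / 2) with h | h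
    · exact Or.inr h
    · left
      change -(1 / 2 : ℝ) < x.1 2
      linarith
  · rw [Dp_eq]
    exact contractible_cap 1 (by norm_num)
  · rw [Dm_eq]
    exact contractible_cap (-1) (by norm_num)

end Pool.Agent.H94.KU.CPT
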